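import Pool.Agent.W2helper50.KC.OT
import Pool.Agent.W2helper50.KC.Perfect
import Pool.Agent.W2helper50.KA.OneWay2

/-!
# One-way functions with algebraic access do not give oblivious transfer

The oracle is a uniformly random element `f` of a finite abelian group `G`, for instance a random
function from a finite set to a finite abelian group. All parties, honest or not, have algebraic
access: a query is (given by) a homomorphism from `G` to a finite abelian group `H`, for instance an
arbitrary linear functional of the whole table of `f`, such as the value of a low degree extension.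

1. Random functions are one-way: an adversary with `q` algebraic queries inverts `f` with
   probability at most `(q log |H| + log |Y|) (1 / |X| + 1 / |Y|)`.
2. There is no private oblivious transfer protocol: if a protocol with `n` messages, in which each
   party makes at most `q` algebraic queries, has errors with probability at most `δ` and is
   private, up to `α`, against adversaries who only see the conversation (and one input bit of the
   sender) and make at most `n q L ^ n` algebraic queries, then
   `1 / 2 ≤ 2 δ + 2 n q log |H| / L + 2 α`.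
3. If the protocol has no errors, then `2 q ^ 2 log |H|` queries are enough, for every number of
   messages.
-/

set_option autoImplicit false

namespace Pool.Agent.Results.MP_ae38e0_lc.AlgebraicAccess

open Pool.Agent.W2helper50.KA

/-- The probability of a property of a uniformly random element of a finite set. -/
noncomputable def probability {Ω : Type} (P : Ω → Prop) : ℝ :=
  (Nat.card {ω // P ω} : ℝ) / (Nat.card Ω : ℝ)

/-- The probability, over a uniformly random point `x` and a uniformly random function `f`, that the
adversary `Adv`, when it gets `f x` and can make queries to `f`, finds a preimage of `f x`. -/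
noncomputable def inversionProbability {X Y H : Type} [AddCommGroup Y] [AddCommGroup H]
    (Adv : Y → Alg ((X → Y) →+ H) H X) : ℝ :=
  probability fun p : X × (X → Y) => p.2 ((Adv (p.2 p.1)).out (fun φ => φ p.2)) = p.2 p.1

/-- A protocol for 1-out-of-2 oblivious transfer of bits, with `n` messages. `receiver c r` is the
strategy of the receiver with the choice bit `c` and the coins `r`, `sender b₀ b₁ s` is the strategy
of the sender with the input bits `b₀`, `b₁` and the coins `s`. The receiver sends the first message
if `d` is `true`, the sender sends it if `d` is `false`. The result of the receiver is its output;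
the result of the sender is ignored. -/
structure OT (I H M RR RS : Type) (n : ℕ) (d : Bool) where
  receiver : Bool → RR → Strat I H M Bool n d
  sender : Bool → Bool → RS → Strat I H M Bool n (!d)

namespace OT

variable {G I H M RR RS : Type} [AddCommGroup G] [AddCommGroup H] {n : ℕ} {d : Bool}

/-- The conversation and the output of the receiver (and the result of the sender), if the receiver
has the choice bit `c`. The random choices are `p.1`, the coins of the receiver, `p.2.1.1` and
`p.2.1.2.1`, the input bits `b₀` and `b₁` of the sender, `p.2.1.2.2`, the coins of the sender, and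
`p.2.2`, the oracle. -/
def run (E : OT I H M RR RS n d) (ev : I → G →+ H) (c : Bool)
    (p : RR × (Bool × Bool × RS) × G) : List M × Bool × Bool :=
  play (fun i => ev i p.2.2) n d (E.receiver c p.1) (E.sender p.2.1.1 p.2.1.2.1 p.2.1.2.2)

/-- Each party makes at most `q` queries, for all inputs and coins, all oracles and all messages of
the other party. -/
def QueriesLe (E : OT I H M RR RS n d) (ev : I → G →+ H) (q : ℕ) : Prop :=
  (∀ (c : Bool) (r : RR) (f : G), Within (fun i => ev i f) q n d (E.receiver c r) 0) ∧
  (∀ (b₀ b₁ : Bool) (s : RS) (f : G), Within (fun i => ev i f) q n (!d) (E.sender b₀ b₁ s) 0)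

/-- For both choice bits, the output of the receiver is the chosen bit of the sender, except with
probability `δ`. -/
def ErrorLe (E : OT I H M RR RS n d) (ev : I → G →+ H) (δ : ℝ) : Prop :=
  ∀ c : Bool, probability (fun p : RR × (Bool × Bool × RS) × G =>
    (E.run ev c p).2.1 ≠ if c then p.2.1.2.1 else p.2.1.1) ≤ δ

/-- Privacy for the receiver (in a weak form): an adversary with at most `N` queries, who sees the
conversation and the first input bit of the sender, distinguishes the two choice bits with advantage
at most `α`. -/
def ReceiverPrivate (E : OT I H M RR RS n d) (ev : I → G →+ H) (N : ℕ) (α : ℝ) : Prop :=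
  ∀ Adv : Bool → List M → Alg I H Bool,
    (∀ (b : Bool) (t : List M) (f : G), (Adv b t).cost (fun i => ev i f) ≤ N) →
    |probability (fun p : RR × (Bool × Bool × RS) × G =>
        (Adv p.2.1.1 (E.run ev false p).1).out (fun i => ev i p.2.2) = true) -
      probability (fun p : RR × (Bool × Bool × RS) × G =>
        (Adv p.2.1.1 (E.run ev true p).1).out (fun i => ev i p.2.2) = true)| ≤ α

/-- Privacy for the sender (in a weak form): if the receiver chooses the second bit of the sender,
then an adversary with at most `N` queries, who sees the conversation, finds the first bit with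
probability at most `1 / 2 + α`. -/
def SenderPrivate (E : OT I H M RR RS n d) (ev : I → G →+ H) (N : ℕ) (α : ℝ) : Prop :=
  ∀ Adv : List M → Alg I H Bool,
    (∀ (t : List M) (f : G), (Adv t).cost (fun i => ev i f) ≤ N) →
    probability (fun p : RR × (Bool × Bool × RS) × G =>
        (Adv (E.run ev true p).1).out (fun i => ev i p.2.2) = p.2.1.1) ≤ 1 / 2 + α

end OT

theorem card_ne {Ω : Type} [Fintype Ω] (P : Ω → Prop) :
    Nat.card {ω // P ω} + W2helper50.KB.cnt (fun ω => ¬ P ω) = Fintype.card Ω := by
  classical
  have h1 : Nat.card {ω // P ω} = W2helper50.KB.cnt P := by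
    rw [W2helper50.KB.cnt, ← Fintype.card_subtype, Nat.card_eq_fintype_card]
  have h2 : W2helper50.KB.cnt (fun _ : Ω => True) = Fintype.card Ω := by
    simp [W2helper50.KB.cnt]
  rw [h1, ← h2, W2helper50.KB.cnt_split (fun _ : Ω => True) P]
  simp only [true_and]

theorem probability_ne {Ω : Type} [Fintype Ω] [Nonempty Ω] (P : Ω → Prop) :
    probability P = 1 - (W2helper50.KB.cnt (fun ω => ¬ P ω) : ℝ) / Fintype.card Ω := by
  have h := card_ne P
  have hN : (0 : ℝ) < Fintype.card Ω := by exact_mod_cast Fintype.card_pos
  have h' : (Nat.card {ω // P ω} : ℝ) + W2helper50.KB.cnt (fun ω => ¬ P ω) = Fintype.card Ω := by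
    exact_mod_cast h
  rw [probability, Nat.card_eq_fintype_card (α := Ω), eq_sub_iff_add_eq, ← add_div, h',
    div_self hN.ne']

theorem probability_cnt {Ω : Type} [Fintype Ω] (P : Ω → Prop) :
    probability P = (W2helper50.KB.cnt P : ℝ) / Fintype.card Ω := by
  classical
  rw [probability, Nat.card_eq_fintype_card (α := Ω)]
  congr 2
  rw [W2helper50.KB.cnt, ← Fintype.card_subtype, Nat.card_eq_fintype_card]

theorem conclude {G I H M RR RS : Type} [AddCommGroup G] [AddCommGroup H] {n : ℕ} {d : Bool}
    (E : OT I H M RR RS n d) (ev : I → G →+ H) (N : ℕ) (α ε : ℝ) (Eve : List M → Alg I H Bool)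
    (hEve : ∀ (t : List M) (f : G), (Eve t).cost (fun i => ev i f) ≤ N)
    (h : 1 - ε ≤ probability (fun p : RR × (Bool × Bool × RS) × G =>
        (Eve (E.run ev false p).1).out (fun i => ev i p.2.2) = p.2.1.1))
    (h1 : E.ReceiverPrivate ev N α) (h2 : E.SenderPrivate ev N α) : 1 / 2 ≤ ε + 2 * α := by
  have h3 := h1 (fun b t => W2helper50.KC.amap (fun x => x == b) (Eve t))
    (fun b t f => by
      rw [W2helper50.KC.amap_cost]
      exact hEve t f)
  have h4 := h2 Eve hEve
  simp only [W2helper50.KC.amap_out, beq_iff_eq] at h3
  have h5 := (abs_le.1 h3).2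
  linarith

/-- Relative to a random function with algebraic access, there are one-way functions, but there is
no oblivious transfer. -/
theorem result :
    (∀ (X Y H : Type) [Fintype X] [Nonempty X] [Fintype Y] [AddCommGroup Y] [Nontrivial Y]
      [AddCommGroup H] [Fintype H] (Adv : Y → Alg ((X → Y) →+ H) H X) (q : ℕ),
      (∀ (y : Y) (f : X → Y), (Adv y).cost (fun φ => φ f) ≤ q) →
      inversionProbability Adv ≤
        (q * Nat.clog 2 (Nat.card H) + Nat.clog 2 (Nat.card Y) : ℝ) *
          (1 / Nat.card X + 1 / Nat.card Y)) ∧
    (∀ (G I H M RR RS : Type) [AddCommGroup G] [Finite G] [AddCommGroup H] [Finite H]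
      [Finite RR] [Nonempty RR] [Finite RS] [Nonempty RS] (ev : I → G →+ H) (n : ℕ) (d : Bool)
      (E : OT I H M RR RS n d) (q : ℕ) (δ α : ℝ), E.QueriesLe ev q → E.ErrorLe ev δ →
      (∀ L : ℕ, 0 < L → E.ReceiverPrivate ev (n * q * L ^ n) α →
        E.SenderPrivate ev (n * q * L ^ n) α →
        1 / 2 ≤ 2 * δ + 2 * n * q * Nat.clog 2 (Nat.card H) / L + 2 * α) ∧
      (δ = 0 → E.ReceiverPrivate ev (2 * q ^ 2 * Nat.clog 2 (Nat.card H)) α →
        E.SenderPrivate ev (2 * q ^ 2 * Nat.clog 2 (Nat.card H)) α → 1 / 4 ≤ α)) := by
  refine ⟨?_, ?_⟩
  · intro X Y H _ _ _ _ _ _ _ Adv q hq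
    exact oneWay Adv q hq
  · intro G I H M RR RS _ _ _ _ _ _ _ _ ev n d E q δ α hq hδ
    have := Fintype.ofFinite G
    have := Fintype.ofFinite RR
    have := Fintype.ofFinite RS
    have hN : (0 : ℝ) < Fintype.card (RR × (Bool × Bool × RS) × G) := by
      exact_mod_cast Fintype.card_pos
    refine ⟨?_, ?_⟩
    · intro L hL h1 h2
      obtain ⟨Eve, h3, h4⟩ := W2helper50.KC.playError ev q L hL n d (E.receiver false)
        (fun s : Bool × Bool × RS => E.sender s.1 s.2.1 s.2.2) (fun s => s.1)
        (fun r f => hq.1 false r f) (fun s f => hq.2 s.1 s.2.1 s.2.2 f)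
      have hL' : (0 : ℝ) < L := by exact_mod_cast hL
      have h5 := hδ false
      rw [probability_cnt] at h5
      have h6 : 1 - (2 * δ + 2 * n * q * Nat.clog 2 (Nat.card H) / L) ≤
          probability (fun p : RR × (Bool × Bool × RS) × G =>
            (Eve (E.run ev false p).1).out (fun i => ev i p.2.2) = p.2.1.1) := by
        rw [probability_ne]
        apply sub_le_sub_left
        rw [div_le_iff₀ hN] at h5 ⊢
        have h7 : (L : ℝ) * W2helper50.KB.cnt (fun p : RR × (Bool × Bool × RS) × G =>
            ¬ (Eve (E.run ev false p).1).out (fun i => ev i p.2.2) = p.2.1.1) ≤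
            2 * L * W2helper50.KB.cnt (fun p : RR × (Bool × Bool × RS) × G =>
            (E.run ev false p).2.1 ≠ if false then p.2.1.2.1 else p.2.1.1) +
            2 * n * (q * Nat.clog 2 (Nat.card H)) *
              Fintype.card (RR × (Bool × Bool × RS) × G) := by
          exact_mod_cast h4
        have h8 : (L : ℝ) * W2helper50.KB.cnt (fun p : RR × (Bool × Bool × RS) × G =>
            ¬ (Eve (E.run ev false p).1).out (fun i => ev i p.2.2) = p.2.1.1) ≤
            L * ((2 * δ + 2 * n * q * Nat.clog 2 (Nat.card H) / L) *
              Fintype.card (RR × (Bool × Bool × RS) × G)) := by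
          refine h7.trans ?_
          have h9 := mul_le_mul_of_nonneg_left h5 (mul_nonneg zero_le_two hL'.le)
          have h10 : (L : ℝ) * ((2 * δ + 2 * n * q * Nat.clog 2 (Nat.card H) / L) *
              Fintype.card (RR × (Bool × Bool × RS) × G)) =
              2 * L * (δ * Fintype.card (RR × (Bool × Bool × RS) × G)) +
              2 * n * (q * Nat.clog 2 (Nat.card H)) *
                Fintype.card (RR × (Bool × Bool × RS) × G) := by
            field_simp
          rw [h10]
          linarith
        exact le_of_mul_le_mul_left h8 hL'
      exact conclude E ev _ α _ Eve h3 h6 h1 h2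
    · intro hδ0 h1 h2
      subst hδ0
      obtain ⟨Eve, h3, h4⟩ := W2helper50.KC.playPerfect ev q n d (E.receiver false)
        (fun s : Bool × Bool × RS => E.sender s.1 s.2.1 s.2.2) (fun s => s.1)
        (fun r f => hq.1 false r f) (fun s f => hq.2 s.1 s.2.1 s.2.2 f)
        (by
          intro r s f
          have h5 := hδ false
          rw [probability_cnt] at h5
          have h6 : (W2helper50.KB.cnt (fun p : RR × (Bool × Bool × RS) × G =>
              (E.run ev false p).2.1 ≠ if false then p.2.1.2.1 else p.2.1.1) : ℝ) ≤ 0 := by
            rw [div_le_iff₀ hN, zero_mul] at h5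
            exact h5
          have h7 : W2helper50.KB.cnt (fun p : RR × (Bool × Bool × RS) × G =>
              (E.run ev false p).2.1 ≠ if false then p.2.1.2.1 else p.2.1.1) = 0 := by
            have : W2helper50.KB.cnt (fun p : RR × (Bool × Bool × RS) × G =>
              (E.run ev false p).2.1 ≠ if false then p.2.1.2.1 else p.2.1.1) ≤ 0 := by
              exact_mod_cast h6
            omega
          have h8 := W2helper50.KC.of_cnt_eq_zero h7 (r, s, f)
          rw [not_not] at h8
          exact h8)
      have h3' : ∀ (t : List M) (f : G), (Eve t).cost (fun i => ev i f) ≤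
          2 * q ^ 2 * Nat.clog 2 (Nat.card H) := by
        intro t f
        refine (h3 t f).trans (le_of_eq ?_)
        ring
      have h6 : 1 - (0 : ℝ) ≤ probability (fun p : RR × (Bool × Bool × RS) × G =>
            (Eve (E.run ev false p).1).out (fun i => ev i p.2.2) = p.2.1.1) := by
        have h9 : W2helper50.KB.cnt (fun p : RR × (Bool × Bool × RS) × G =>
            ¬ (Eve (E.run ev false p).1).out (fun i => ev i p.2.2) = p.2.1.1) = 0 :=
          W2helper50.KB.cnt_false (fun p => not_not.2 (h4 p.1 p.2.1 p.2.2))
        rw [probability_ne, h9]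
        simp
      have h7 := conclude E ev _ α 0 Eve h3' h6 h1 h2
      linarith

end Pool.Agent.Results.MP_ae38e0_lc.AlgebraicAccess
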