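import Mathlib
import Pool.Agent.W2helper50.CZ.Circle
import Pool.Agent.W2helper17.CZ.VN

/-!
# MP_16d611_an: the scaled `q`-numerical range is a spectral set for `|q| ≤ 1/√2`

Let `n ≥ 2`, `A` a complex `n × n` matrix and `0 < |q| ≤ 1/√2`. Then
`‖p(A)‖ ≤ sup {|p(z)| : z ∈ Ω_q}` for every complex polynomial `p`. As `c(q) = 1` for `|q| ≤ 4/5`, this is
the inequality of Q1 for these `q`.

Proof. By Stampfli's theorem there are a scalar `a` and a unit vector `x` with `(A - a) x ⊥ x` and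
`‖(A - a) x‖ = ‖A - a‖`. Hence for every `0 < |q| ≤ 1` the circle with centre `a` and radius
`ρ = (√(1 - |q|²) / |q|) ‖A - a‖` lies in `Ω_q`. For `|q| ≤ 1/√2` one has `‖A - a‖ ≤ ρ`, and von Neumann's
inequality for the disc with this boundary gives the result.

(For `n = 1` and `|q| < 1` the set `Ω_q` is empty.)
-/

set_option autoImplicit false

namespace Pool.Agent.Results.MP_16d611_an.SmallQ

open Polynomial

/-- the operator on `ℂⁿ` (Euclidean norm) given by the matrix `B` -/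
noncomputable def op {n : ℕ} (B : Matrix (Fin n) (Fin n) ℂ) :
    EuclideanSpace ℂ (Fin n) →L[ℂ] EuclideanSpace ℂ (Fin n) :=
  Matrix.toEuclideanCLM (n := Fin n) (𝕜 := ℂ) B

/-- the inner product `⟨x, y⟩ = ∑ i, x i * conj (y i)` -/
noncomputable def ip {n : ℕ} (x y : EuclideanSpace ℂ (Fin n)) : ℂ := ∑ i, x i * (starRingEnd ℂ) (y i)

/-- the scaled `q`-numerical range `Ω_q = W_q(A) / q` -/
def Omega {n : ℕ} (A : Matrix (Fin n) (Fin n) ℂ) (q : ℂ) : Set ℂ :=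
  {z | ∃ x y : EuclideanSpace ℂ (Fin n), ‖x‖ = 1 ∧ ‖y‖ = 1 ∧ ip x y = q ∧ z = ip (op A x) y / q}

lemma ip_eq {n : ℕ} (x y : EuclideanSpace ℂ (Fin n)) : ip x y = inner ℂ y x := by
  unfold ip
  rw [PiLp.inner_apply]
  simp [RCLike.inner_apply]

theorem result (n : ℕ) (hn : 2 ≤ n) (A : Matrix (Fin n) (Fin n) ℂ) (q : ℂ) (h0 : q ≠ 0)
    (hq : ‖q‖ ≤ 1 / Real.sqrt 2) (p : ℂ[X]) (M : ℝ) (hM : ∀ z ∈ Omega A q, ‖p.eval z‖ ≤ M) :
    ‖op (aeval A p)‖ ≤ M := by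
  have hne : NeZero n := ⟨by omega⟩
  have hfr : 2 ≤ Module.finrank ℂ (EuclideanSpace ℂ (Fin n)) := by
    rw [finrank_euclideanSpace, Fintype.card_fin]; exact hn
  have hq0 : 0 < ‖q‖ := norm_pos_iff.2 h0
  have hq2 : ‖q‖ ^ 2 ≤ 1 / 2 := by
    have h1 := pow_le_pow_left₀ (norm_nonneg q) hq 2
    rwa [div_pow, one_pow, Real.sq_sqrt (by norm_num)] at h1
  have hq1 : ‖q‖ ≤ 1 := by nlinarith [norm_nonneg q]
  obtain ⟨a, ha⟩ := Pool.Agent.W2helper50.CZ.circle_mem (op A) hfr q h0 hq1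
  have hcirc : ∀ z : ℂ, ‖z - a‖ = Real.sqrt (1 - ‖q‖ ^ 2) / ‖q‖ * ‖op A - a • (1 : _ →L[ℂ] _)‖ →
      ‖p.eval z‖ ≤ M := by
    intro z hz
    obtain ⟨x, y, h1, h2, h3, h4⟩ := ha z hz
    exact hM z ⟨x, y, h1, h2, by rw [ip_eq, h3], by rw [ip_eq, h4]⟩
  have hs : 1 ≤ Real.sqrt (1 - ‖q‖ ^ 2) / ‖q‖ := by
    rw [le_div_iff₀ hq0, one_mul]
    apply Real.le_sqrt_of_sq_le
    linarith
  have hop : op (aeval A p) = aeval (op A) p := by
    unfold op
    have h1 := Polynomial.aeval_algHom_apply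
      (Matrix.toEuclideanCLM (n := Fin n) (𝕜 := ℂ)).toAlgEquiv.toAlgHom A p
    exact h1.symm
  rw [hop]
  by_cases hR : ‖op A - a • (1 : EuclideanSpace ℂ (Fin n) →L[ℂ] EuclideanSpace ℂ (Fin n))‖ = 0
  · have h1 : op A = algebraMap ℂ _ a := by
      rw [norm_eq_zero, sub_eq_zero] at hR
      rw [hR, Algebra.algebraMap_eq_smul_one]
    rw [h1, Polynomial.aeval_algebraMap_apply, norm_algebraMap']
    have h2 := hcirc a (by rw [hR]; simp)
    simpa using h2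
  · have hR0 : 0 < ‖op A - a • (1 : EuclideanSpace ℂ (Fin n) →L[ℂ] EuclideanSpace ℂ (Fin n))‖ :=
      lt_of_le_of_ne (norm_nonneg _) (Ne.symm hR)
    refine Pool.Agent.W2helper17.CZ.vnDisc (op A) a _ (by positivity) ?_ p M hcirc
    nlinarith

end Pool.Agent.Results.MP_16d611_an.SmallQ
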